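import Pool.Agent.H84.ND.Targets3

/-!
# Board ndc: the numerical inequality NE
-/

set_option autoImplicit false

namespace Pool.Agent.H74.ND

open Finset Pool.Agent.H84.SM Pool.Agent.H84.ND

theorem sum_toNat (a : ℤ) : ∀ n : ℕ, -a ≤ n →
    2 * ((∑ s ∈ range n, (a + s + 1).toNat : ℕ) : ℤ) =
      2 * n * (a + 1) + n * (n - 1) + (if a < 0 then a * (a + 1) else 0) := by
  intro n
  induction n with
  | zero =>
    intro h
    have h1 : ¬ a < 0 := by push_cast at h; omega
    simp [h1]
  | succ n ih =>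
    intro h
    by_cases h1 : -a ≤ n
    · have h2 : ((a + n + 1).toNat : ℤ) = a + n + 1 := Int.toNat_of_nonneg (by omega)
      rw [sum_range_succ]
      push_cast
      push_cast at ih
      have h3 := ih h1
      rw [mul_add, h3]
      rw [h2]
      ring
    · have ha : a = -((n : ℤ) + 1) := by push_cast at h; omega
      have h2 : ∑ s ∈ range (n + 1), (a + s + 1).toNat = 0 := by
        refine sum_eq_zero fun s hs => ?_
        rw [mem_range] at hs
        rw [Int.toNat_eq_zero]
        omega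
      have h4 : a < 0 := by omega
      rw [h2, if_pos h4, ha]
      push_cast
      ring

theorem sum_lin (D i : ℤ) (m : ℕ) : 2 * ∑ j ∈ range m, ((j : ℤ) * D - i + 1) =
    D * (m * (m - 1)) - 2 * m * (i - 1) := by
  induction m with
  | zero => simp
  | succ m ih =>
    rw [sum_range_succ, mul_add, ih]
    push_cast
    ring

theorem sum_sq (D : ℤ) (q : ℕ) : 6 * ∑ j ∈ range q, (D * ((j : ℤ) - q)) ^ 2 =
    D ^ 2 * (q * (q + 1) * (2 * q + 1)) := by
  have h : ∀ n : ℕ, 6 * ∑ j ∈ range n, (D * ((n : ℤ) - j)) ^ 2 =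
      D ^ 2 * (n * (n + 1) * (2 * n + 1)) := by
    intro n
    induction n with
    | zero => simp
    | succ n ih =>
      rw [sum_range_succ']
      have h1 : ∑ k ∈ range n, (D * (((n + 1 : ℕ) : ℤ) - ((k + 1 : ℕ) : ℤ))) ^ 2 =
          ∑ k ∈ range n, (D * ((n : ℤ) - k)) ^ 2 := by
        refine sum_congr rfl fun k _ => ?_
        push_cast
        ring
      rw [h1, mul_add, ih]
      push_cast
      ring
  rw [← h q]
  congr 1
  refine sum_congr rfl fun j _ => ?_
  ring

theorem ch2 (x : ℕ) : 2 * ((x + 1).choose 2 : ℤ) = (x + 1) * x := by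
  induction x with
  | zero => simp
  | succ x ih =>
    rw [Nat.choose_succ_succ' (x + 1) 1, Nat.choose_one_right]
    push_cast
    linarith

theorem ch3 (x : ℕ) : 6 * ((x + 2).choose 3 : ℤ) = (x + 2) * (x + 1) * x := by
  induction x with
  | zero => simp [Nat.choose]
  | succ x ih =>
    have h := ch2 (x + 1)
    rw [show x + 1 + 2 = (x + 2) + 1 by ring, Nat.choose_succ_succ' (x + 2) 2]
    rw [show x + 1 + 1 = x + 2 by ring] at h
    push_cast
    push_cast at ih h
    linarith

theorem pf_NE : T_NE := by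
  intro d hd
  obtain ⟨n, rfl⟩ : ∃ n : ℕ, d = n + 4 := ⟨d - 4, by omega⟩
  refine ⟨(n + 3) * (2 * (n + 4)), (n + 3) * (2 * (n + 4)) + (n + 4), fun t ht => ?_⟩
  generalize hq : 2 * (n + 4) = q at *
  have hqz : (q : ℤ) = 2 * (n + 4) := by rw [← hq]; push_cast; ring
  set i : ℕ := (n + 3) * q with hi
  have hiz : (i : ℤ) = (n + 3) * q := by rw [hi]; push_cast; ring
  have ht' : (i : ℤ) + (n + 4) ≤ t := by
    rw [hiz, hqz]
    exact ht
  obtain ⟨e, he⟩ : ∃ e : ℕ, t - i = e := ⟨(t - i).toNat, (Int.toNat_of_nonneg (by omega)).symm⟩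
  have hen : n + 4 ≤ e := by omega
  -- upper bound
  have hub : 12 * (ubs (n + 4) i t : ℤ) ≤ 6 * ((t + 1) * ((n + 3) * ((i + 1) * i)) -
      2 * (t + 1) * (i + 1) * (i - 1)) + 6 * ((i + 1) * ((t + 1) * t)) +
      (n + 3) ^ 2 * (q * (q + 1) * (2 * q + 1)) := by
    have h1 : ubs (n + 4) i t = ∑ j ∈ range (i + 1), ∑ s ∈ range (t + 1).toNat,
        ((((j : ℤ) * (n + 3) - i)) + s + 1).toNat := by
      unfold ubs jd
      rw [sum_comm]
      refine sum_congr rfl fun j _ => sum_congr rfl fun s _ => ?_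
      congr 1
      push_cast
      ring
    have hN : (((t + 1).toNat : ℕ) : ℤ) = t + 1 := Int.toNat_of_nonneg (by omega)
    have h2 : 2 * (ubs (n + 4) i t : ℤ) = ∑ j ∈ range (i + 1), (2 * (t + 1) *
        ((j : ℤ) * (n + 3) - i + 1) + (t + 1) * t + (if (j : ℤ) * (n + 3) - i < 0 then
          ((j : ℤ) * (n + 3) - i) * ((j : ℤ) * (n + 3) - i + 1) else 0)) := by
      rw [h1]
      push_cast [mul_sum]
      refine sum_congr rfl fun j _ => ?_
      have h3 := sum_toNat ((j : ℤ) * (n + 3) - i) (t + 1).toNat (by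
        rw [hN]
        have : (0 : ℤ) ≤ (j : ℤ) * (n + 3) := by positivity
        omega)
      rw [hN] at h3
      push_cast at h3
      rw [mul_sum] at h3
      rw [h3]
      ring
    have h4 : ∑ j ∈ range (i + 1), (if (j : ℤ) * (n + 3) - i < 0 then
          ((j : ℤ) * (n + 3) - i) * ((j : ℤ) * (n + 3) - i + 1) else 0) ≤
        ∑ j ∈ range q, (((n : ℤ) + 3) * ((j : ℤ) - q)) ^ 2 := by
      rw [← sum_filter]
      have h5 : (range (i + 1)).filter (fun j : ℕ => (j : ℤ) * (n + 3) - i < 0) = range q := by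
        ext j
        rw [mem_filter, mem_range, mem_range]
        constructor
        · rintro ⟨_, h⟩
          by_contra h6
          have h7 : (q : ℤ) ≤ j := by exact_mod_cast not_lt.1 h6
          have h8 : (0 : ℤ) ≤ (n + 3) * (j - q) := mul_nonneg (by positivity) (by linarith)
          rw [hiz] at h
          linarith
        · intro h
          have h7 : (j : ℤ) + 1 ≤ q := by exact_mod_cast h
          have h8 : (0 : ℤ) ≤ (n + 3) * (q - j - 1) := mul_nonneg (by positivity) (by linarith)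
          refine ⟨?_, ?_⟩
          · have : q ≤ i := by
              rw [hi]
              exact Nat.le_mul_of_pos_left _ (by omega)
            omega
          · rw [hiz]
            have : (0 : ℤ) ≤ n := by positivity
            linarith
      rw [h5]
      refine sum_le_sum fun j hj => ?_
      rw [mem_range] at hj
      have h7 : (j : ℤ) + 1 ≤ q := by exact_mod_cast hj
      have h8 : (0 : ℤ) ≤ (n + 3) * (q - j - 1) := mul_nonneg (by positivity) (by linarith)
      have h9 : (j : ℤ) * (n + 3) - i = (n + 3) * ((j : ℤ) - q) := by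
        rw [hiz]
        ring
      rw [h9]
      have : (0 : ℤ) ≤ n := by positivity
      nlinarith
    have h5 := sum_lin ((n : ℤ) + 3) i (i + 1)
    have h6 := sum_sq ((n : ℤ) + 3) q
    rw [sum_add_distrib, sum_add_distrib, ← mul_sum, sum_const, card_range, nsmul_eq_mul] at h2
    push_cast at h2 h5 h4 h6
    have h7 : 2 * (t + 1) * ∑ j ∈ range (i + 1), ((j : ℤ) * (n + 3) - i + 1) =
        (t + 1) * (((n : ℤ) + 3) * ((i + 1) * (i + 1 - 1)) - 2 * (i + 1) * (i - 1)) := by
      rw [← h5]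
      ring
    rw [h7] at h2
    linarith
  -- lower bound
  have hlb : 3 * (((e : ℤ) + 2) * (e + 1) * ((i + 2) * (i + 1)) -
      (e - n - 1) * (e - n - 2) * ((i + 1) * i)) ≤ 12 * (bdim (n + 4) (t - i) i : ℤ) := by
    unfold bdim
    rw [he, if_neg (by omega), Int.toNat_natCast]
    obtain ⟨m, rfl⟩ : ∃ m : ℕ, e = n + 4 + m := ⟨e - (n + 4), by omega⟩
    rw [show n + 4 + m + 3 - (n + 4) = (m + 2) + 1 by omega]
    have c1 := ch2 (n + 4 + m + 1)
    have c2 := ch2 (i + 1)
    have c3 := ch2 (m + 2)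
    have c4 := ch2 i
    have c5 : (((n + 4 + m + 2).choose 2 : ℕ) : ℤ) * ((i + 2).choose 2 : ℕ) -
        ((m + 2 + 1).choose 2 : ℕ) * ((i + 1).choose 2 : ℕ) ≤
        (((n + 4 + m + 2).choose 2 * (i + 2).choose 2 -
          (m + 2 + 1).choose 2 * (i + 1).choose 2 : ℕ) : ℤ) := by
      rw [← Nat.cast_mul, ← Nat.cast_mul]
      omega
    have c6 : (2 * (((n + 4 + m + 2).choose 2 : ℕ) : ℤ)) * (2 * ((i + 2).choose 2 : ℕ)) -
        (2 * ((m + 2 + 1).choose 2 : ℕ)) * (2 * ((i + 1).choose 2 : ℕ)) ≤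
        4 * (((n + 4 + m + 2).choose 2 * (i + 2).choose 2 -
          (m + 2 + 1).choose 2 * (i + 1).choose 2 : ℕ) : ℤ) := by
      linarith
    rw [show n + 4 + m + 2 = n + 4 + m + 1 + 1 by ring, c3, c4, c1,
      show i + 2 = i + 1 + 1 by ring, c2] at c6
    push_cast at c6 ⊢
    linarith
  have h3 := ch3 i
  have h4 : 12 * (ubs (n + 4) i t : ℤ) < 12 * ((bdim (n + 4) (t - i) i +
      (3 * (n + 4) - 5) * (i + 2).choose 3 : ℕ) : ℤ) := by
    have h5 : 3 * (n + 4) - 5 = 3 * n + 7 := by omega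
    rw [h5]
    push_cast
    have h6 : t = e + i := by linarith
    subst h6
    have h7 : 12 * ((3 * (n : ℤ) + 7) * ((i + 2).choose 3 : ℕ)) =
        2 * (3 * n + 7) * ((i + 2) * (i + 1) * i) := by
      rw [← h3]
      ring
    rw [mul_add, h7]
    refine lt_of_le_of_lt hub (lt_of_lt_of_le ?_ (add_le_add_left hlb _))
    rw [hiz, hqz]
    have hn : (0 : ℤ) ≤ n := by positivity
    nlinarith [pow_nonneg hn 2, pow_nonneg hn 3, pow_nonneg hn 4, pow_nonneg hn 5,
      pow_nonneg hn 6, pow_nonneg hn 7]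
  have h5 : (ubs (n + 4) i t : ℤ) < ((bdim (n + 4) (t - i) i +
      (3 * (n + 4) - 5) * (i + 2).choose 3 : ℕ) : ℤ) := by linarith
  exact_mod_cast h5

end Pool.Agent.H74.ND
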